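import Mathlib

set_option autoImplicit false

namespace POC

universe u
variable {V : Type u}

/-- edges of a list of vertices: the consecutive pairs -/
def le : List V → List (Sym2 V)
  | [] => []
  | [_] => []
  | a :: b :: l => s(a, b) :: le (b :: l)

def me (l : List V) : Multiset (Sym2 V) := (le l : Multiset (Sym2 V))

theorem le_append (l₁ l₂ : List V) (u v : V) :
    le (l₁ ++ u :: v :: l₂) = le (l₁ ++ [u]) ++ s(u, v) :: le (v :: l₂) := by
  induction l₁ with
  | nil => simp [le]
  | cons a l ih =>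
    cases l with
    | nil => simp [le]
    | cons b l => simpa [le] using ih

theorem me_append (l₁ l₂ : List V) (u v : V) :
    me (l₁ ++ u :: v :: l₂) = me (l₁ ++ [u]) + me (v :: l₂) + {s(u, v)} := by
  unfold me
  rw [le_append]
  rw [← Multiset.coe_add, ← Multiset.cons_coe, ← Multiset.singleton_add]
  abel

theorem me_cons_cons (a b : V) (l : List V) : me (a :: b :: l) = s(a,b) ::ₘ me (b :: l) := by
  simp [me, le]

theorem me_singleton (a : V) : me [a] = 0 := rfl
theorem me_nil : me ([] : List V) = 0 := rfl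

theorem me_reverse (l : List V) : me l.reverse = me l := by
  induction l with
  | nil => rfl
  | cons a l ih =>
    cases l with
    | nil => rfl
    | cons b l =>
      have h : (a :: b :: l).reverse = l.reverse ++ b :: a :: [] := by simp
      have h2 : l.reverse ++ [b] = (b :: l).reverse := by simp
      rw [h, me_append, h2, ih, me_cons_cons, me_singleton, Sym2.eq_swap, add_zero, add_comm,
        Multiset.singleton_add]

/-- the two end vertices -/
def ends (l : List V) : Multiset V := (l.head?.toList : Multiset V) + (l.getLast?.toList : Multiset V)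

theorem ends_reverse (l : List V) : ends l.reverse = ends l := by
  unfold ends
  rw [List.head?_reverse, List.getLast?_reverse, add_comm]

theorem card_ends (l : List V) (h : l ≠ []) : Multiset.card (ends l) = 2 := by
  obtain ⟨a, t, rfl⟩ := List.exists_cons_of_ne_nil h
  simp [ends, List.getLast?_eq_getLast_of_ne_nil]

theorem ends_mid (u v : V) (l : List V) : ends (u :: (l ++ [v])) = {u, v} := by
  have : (u :: (l ++ [v])).getLast? = some v := by
    rw [← List.cons_append, List.getLast?_append]; simp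
  simp [ends, this]

/-- decomposition of a list of length at least two with a prescribed end -/
theorem exists_end (b : List V) (hb : 2 ≤ b.length) (u : V) (hu : u ∈ ends b) :
    ∃ (v : V) (l : List V), (b = u :: (l ++ [v]) ∨ b.reverse = u :: (l ++ [v])) := by
  obtain ⟨a, t, rfl⟩ := List.exists_cons_of_ne_nil (l := b) (by rintro rfl; simp at hb)
  have ht : t ≠ [] := by rintro rfl; simp at hb
  obtain ⟨l, v, rfl⟩ : ∃ l v, t = l ++ [v] := by
    refine ⟨t.dropLast, t.getLast ht, ?_⟩
    rw [List.dropLast_append_getLast ht]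
  rw [ends_mid] at hu
  simp at hu
  rcases hu with rfl | rfl
  · exact ⟨v, l, Or.inl rfl⟩
  · exact ⟨a, l.reverse, Or.inr (by simp)⟩

def verts (B : Multiset (List V)) : Multiset V := B.bind (fun b => (b : Multiset V))
def edges (B : Multiset (List V)) : Multiset (Sym2 V) := B.bind me
def endz (B : Multiset (List V)) : Multiset V := B.bind ends

structure BS (B : Multiset (List V)) : Prop where
  len : ∀ b ∈ B, 2 ≤ b.length
  nd : (verts B).Nodup

theorem verts_cons (b : List V) (B : Multiset (List V)) : verts (b ::ₘ B) = (b : Multiset V) + verts B := by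
  simp [verts]
theorem edges_cons (b : List V) (B : Multiset (List V)) : edges (b ::ₘ B) = me b + edges B := by
  simp [edges]
theorem endz_cons (b : List V) (B : Multiset (List V)) : endz (b ::ₘ B) = ends b + endz B := by
  simp [endz]

theorem ends_le (b : List V) (hb : 2 ≤ b.length) : ends b ≤ (b : Multiset V) := by
  obtain ⟨a, t, rfl⟩ := List.exists_cons_of_ne_nil (l := b) (by rintro rfl; simp at hb)
  have ht : t ≠ [] := by rintro rfl; simp at hb
  obtain ⟨l, v, rfl⟩ : ∃ l v, t = l ++ [v] := by
    refine ⟨t.dropLast, t.getLast ht, ?_⟩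
    rw [List.dropLast_append_getLast ht]
  rw [ends_mid]
  have : ((a :: (l ++ [v]) : List V) : Multiset V) = {a, v} + (l : Multiset V) := by
    simp [← Multiset.cons_coe, ← Multiset.coe_add]
    rw [Multiset.add_comm, Multiset.singleton_add]
  rw [this]
  exact Multiset.le_add_right _ _

theorem endz_le (B : Multiset (List V)) (hB : ∀ b ∈ B, 2 ≤ b.length) : endz B ≤ verts B := by
  induction B using Multiset.induction with
  | empty => simp [endz, verts]
  | cons b B ih =>
    rw [endz_cons, verts_cons]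
    refine add_le_add (ends_le b (hB b (by simp))) (ih fun c hc => hB c (by simp [hc]))

theorem BS.endz_nodup {B : Multiset (List V)} (h : BS B) : (endz B).Nodup :=
  Multiset.nodup_of_le (endz_le B h.len) h.nd

theorem card_endz (B : Multiset (List V)) (hB : ∀ b ∈ B, 2 ≤ b.length) :
    Multiset.card (endz B) = 2 * Multiset.card B := by
  induction B using Multiset.induction with
  | empty => simp [endz]
  | cons b B ih =>
    rw [endz_cons, Multiset.card_add, card_ends _ (by rintro rfl; simpa using hB [] (by simp)), ih fun c hc => hB c (by simp [hc])]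
    simp; ring

/-- the two vertices are the two ends of one block -/
def Partner (B : Multiset (List V)) (u v : V) : Prop := ∃ b ∈ B, u ∈ ends b ∧ v ∈ ends b ∧ u ≠ v

theorem Partner.symm {B : Multiset (List V)} {u v : V} (h : Partner B u v) : Partner B v u := by
  obtain ⟨b, hb, h1, h2, h3⟩ := h
  exact ⟨b, hb, h2, h1, h3.symm⟩

theorem BS.partner_unique {B : Multiset (List V)} (hB : BS B) {u v w : V} (h : Partner B u v)
    (h' : Partner B u w) : v = w := by
  obtain ⟨b, hb, h1, h2, h3⟩ := h
  obtain ⟨c, hc, h1', h2', h3'⟩ := h'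
  obtain ⟨B', rfl⟩ := Multiset.exists_cons_of_mem hb
  have hcb : c = b := by
    rw [Multiset.mem_cons] at hc
    rcases hc with rfl | hc
    · rfl
    · exfalso
      have := hB.nd
      rw [verts_cons, Multiset.nodup_add] at this
      have hd := this.2.2
      rw [Multiset.disjoint_left] at hd
      refine hd (a := u) ?_ ?_
      · exact Multiset.mem_of_le (ends_le b (hB.len b (by simp))) h1
      · rw [verts, Multiset.mem_bind]
        exact ⟨c, hc, Multiset.mem_of_le (ends_le c (hB.len c (by simp [hc]))) h1'⟩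
  subst hcb
  obtain ⟨x, l, hx⟩ := exists_end c (hB.len c (by simp)) u h1
  have he : ends c = {u, x} := by
    rcases hx with hx | hx
    · rw [hx, ends_mid]
    · rw [← ends_reverse, hx, ends_mid]
  rw [he] at h2 h2'
  simp at h2 h2'
  rcases h2 with h2 | h2
  · exact absurd h2.symm h3
  · rcases h2' with h2' | h2'
    · exact absurd h2'.symm h3'
    · rw [h2, h2']


/-- replace a block by its reverse -/
theorem BS.flip {B : Multiset (List V)} {b : List V} (hB : BS (b ::ₘ B)) : BS (b.reverse ::ₘ B) := by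
  constructor
  · intro c hc
    rw [Multiset.mem_cons] at hc
    rcases hc with rfl | hc
    · simpa using hB.len b (by simp)
    · exact hB.len c (by simp [hc])
  · have := hB.nd
    rw [verts_cons] at this ⊢
    simpa using this

/-- A block system in which `u` is an end of a block -/
theorem BS.exists_form {B : Multiset (List V)} (hB : BS B) {u : V} (hu : u ∈ endz B) :
    ∃ (x : V) (l : List V) (B' : Multiset (List V)), BS ((u :: (l ++ [x])) ::ₘ B') ∧
      edges B = edges ((u :: (l ++ [x])) ::ₘ B') ∧ verts B = verts ((u :: (l ++ [x])) ::ₘ B') ∧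
      endz B = endz ((u :: (l ++ [x])) ::ₘ B') ∧
      Multiset.card B = Multiset.card B' + 1 ∧ (∀ v w, Partner ((u :: (l ++ [x])) ::ₘ B') v w → Partner B v w) := by
  rw [endz, Multiset.mem_bind] at hu
  obtain ⟨b, hb, hub⟩ := hu
  obtain ⟨B', rfl⟩ := Multiset.exists_cons_of_mem hb
  obtain ⟨x, l, hx⟩ := exists_end b (hB.len b (by simp)) u hub
  rcases hx with hx | hx
  · refine ⟨x, l, B', ?_, ?_, ?_, ?_, ?_, ?_⟩
    · rwa [← hx]
    · rw [← hx]
    · rw [← hx]
    · rw [← hx]
    · simp
    · rw [← hx]; exact fun _ _ h => h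
  · refine ⟨x, l, B', ?_, ?_, ?_, ?_, ?_, ?_⟩
    · rw [← hx]; exact hB.flip
    · rw [← hx, edges_cons, edges_cons, me_reverse]
    · rw [← hx, verts_cons, verts_cons]; simp
    · rw [← hx, endz_cons, endz_cons, ends_reverse]
    · simp
    · rw [← hx]
      rintro v w ⟨c, hc, h1, h2, h3⟩
      rw [Multiset.mem_cons] at hc
      rcases hc with rfl | hc
      · rw [ends_reverse] at h1 h2
        exact ⟨b, by simp, h1, h2, h3⟩
      · exact ⟨c, by simp [hc], h1, h2, h3⟩

/-- adding a new isolated edge -/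
theorem BS.add_new {B : Multiset (List V)} (hB : BS B) {u w : V} (huw : u ≠ w) (hu : u ∉ verts B)
    (hw : w ∉ verts B) : BS ([u, w] ::ₘ B) := by
  constructor
  · intro c hc
    rw [Multiset.mem_cons] at hc
    rcases hc with rfl | hc
    · simp
    · exact hB.len c hc
  · rw [verts_cons]
    rw [Multiset.nodup_add]
    refine ⟨by simpa using huw, hB.nd, ?_⟩
    rw [Multiset.disjoint_left]
    intro a ha
    simp at ha
    rcases ha with rfl | rfl
    · exact hu
    · exact hw

/-- extending a block at its end `u` by a new vertex `w` -/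
theorem BS.extend {B : Multiset (List V)} (hB : BS B) {u w : V} (hu : u ∈ endz B)
    (hw : w ∉ verts B) : ∃ B', BS B' ∧ edges B' = edges B + {s(u, w)} ∧ verts B' = verts B + {w} ∧
      endz B' + {u} = endz B + {w} ∧ Multiset.card B' = Multiset.card B := by
  obtain ⟨x, l, B', h1, h2, h3, h4, h5, h6⟩ := hB.exists_form hu
  refine ⟨(w :: u :: (l ++ [x])) ::ₘ B', ?_, ?_, ?_, ?_, ?_⟩
  · constructor
    · intro c hc
      rw [Multiset.mem_cons] at hc
      rcases hc with rfl | hc
      · simp
      · exact h1.len c (by simp [hc])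
    · have := h1.nd
      rw [← h3] at this
      rw [verts_cons, ← Multiset.cons_coe, Multiset.cons_add, ← verts_cons, ← h3, Multiset.nodup_cons]
      exact ⟨hw, this⟩
  · rw [h2, edges_cons, edges_cons, me_cons_cons, Sym2.eq_swap, Multiset.cons_add, ← Multiset.singleton_add]
    abel
  · rw [h3, verts_cons, verts_cons, ← Multiset.cons_coe, Multiset.cons_add, ← Multiset.singleton_add]
    abel
  · rw [h4, endz_cons, endz_cons, ends_mid]
    have : w :: u :: (l ++ [x]) = w :: ((u :: l) ++ [x]) := by simp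
    rw [this, ends_mid]
    simp only [Multiset.insert_eq_cons, ← Multiset.singleton_add]
    abel
  · rw [h5]; simp

/-- joining two blocks -/
theorem BS.join {B : Multiset (List V)} (hB : BS B) {u v : V} (hu : u ∈ endz B) (hv : v ∈ endz B)
    (huv : u ≠ v) (hp : ¬ Partner B u v) :
    ∃ B', BS B' ∧ edges B' = edges B + {s(u, v)} ∧ verts B' = verts B ∧
      endz B' + {u, v} = endz B ∧ Multiset.card B = Multiset.card B' + 1 := by
  obtain ⟨x, l, B', h1, h2, h3, h4, h5, h6⟩ := hB.exists_form hu
  have hv' : v ∈ endz B' := by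
    rw [h4, endz_cons, Multiset.mem_add] at hv
    rcases hv with hv | hv
    · exfalso
      apply hp
      apply h6
      refine ⟨_, Multiset.mem_cons_self _ _, ?_, hv, huv⟩
      rw [ends_mid]; simp
    · exact hv
  have h1' : BS B' := by
    constructor
    · intro c hc
      exact h1.len c (by simp [hc])
    · have := h1.nd
      rw [verts_cons, Multiset.nodup_add] at this
      exact this.2.1
  obtain ⟨y, m, C, k1, k2, k3, k4, k5, k6⟩ := h1'.exists_form hv'
  refine ⟨((x :: (l.reverse ++ [u])) ++ (v :: (m ++ [y]))) ::ₘ C, ?_, ?_, ?_, ?_, ?_⟩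
  · constructor
    · intro c hc
      rw [Multiset.mem_cons] at hc
      rcases hc with rfl | hc
      · simp; omega
      · exact k1.len c (by simp [hc])
    · have := h1.nd
      rw [verts_cons, k3, verts_cons, ← add_assoc] at this
      rw [verts_cons, ← Multiset.coe_add]
      have e : ((x :: (l.reverse ++ [u]) : List V) : Multiset V) = ((u :: (l ++ [x]) : List V) : Multiset V) := by
        rw [← Multiset.coe_reverse]; simp
      rw [e]
      exact this
  · have e0 : (x :: (l.reverse ++ [u])) ++ (v :: (m ++ [y])) = (x :: l.reverse) ++ u :: v :: (m ++ [y]) := by simp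
    have e1 : me ((x :: l.reverse) ++ [u]) = me (u :: (l ++ [x])) := by
      rw [← me_reverse]; simp
    rw [edges_cons, e0, me_append, e1, h2, edges_cons, k2, edges_cons]
    abel
  · have e : ((x :: (l.reverse ++ [u]) : List V) : Multiset V) = ((u :: (l ++ [x]) : List V) : Multiset V) := by
        rw [← Multiset.coe_reverse]; simp
    rw [verts_cons, ← Multiset.coe_add, e, h3, verts_cons, k3, verts_cons]
    abel
  · have e0 : (x :: (l.reverse ++ [u])) ++ (v :: (m ++ [y])) = x :: ((l.reverse ++ [u] ++ v :: m) ++ [y]) := by simp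
    rw [endz_cons, e0, ends_mid, h4, endz_cons, ends_mid, k4, endz_cons, ends_mid]
    simp only [Multiset.insert_eq_cons, ← Multiset.singleton_add]
    abel
  · rw [h5, k5]; simp


/-- Three elements: some pair is a partner pair in neither block system. -/
theorem link_pair [DecidableEq V] {B₁ B₂ : Multiset (List V)} (h₁ : BS B₁) (h₂ : BS B₂)
    (h : 2 < ((endz B₁).toFinset ∩ (endz B₂).toFinset).card) :
    ∃ u v, u ≠ v ∧ u ∈ endz B₁ ∧ v ∈ endz B₁ ∧ u ∈ endz B₂ ∧ v ∈ endz B₂ ∧
      ¬ Partner B₁ u v ∧ ¬ Partner B₂ u v := by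
  obtain ⟨p, q, r, hp, hq, hr, hpq, hpr, hqr⟩ := Finset.two_lt_card_iff.mp h
  simp only [Finset.mem_inter, Multiset.mem_toFinset] at hp hq hr
  by_contra hcon
  push Not at hcon
  have a1 := hcon p q hpq hp.1 hq.1 hp.2 hq.2
  have a2 := hcon p r hpr hp.1 hr.1 hp.2 hr.2
  have a3 := hcon q r hqr hq.1 hr.1 hq.2 hr.2
  by_cases b1 : Partner B₁ p q
  · have c2 : ¬ Partner B₁ p r := fun hh => hqr (h₁.partner_unique b1 hh)
    have c3 : ¬ Partner B₁ q r := fun hh => hpr (h₁.partner_unique b1.symm hh)
    exact hpq (h₂.partner_unique (a2 c2).symm (a3 c3).symm)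
  · have d1 := a1 b1
    by_cases b2 : Partner B₁ p r
    · have c3 : ¬ Partner B₁ q r := fun hh => hpq (h₁.partner_unique b2.symm hh.symm)
      exact hpr (h₂.partner_unique d1.symm (a3 c3))
    · exact hqr (h₂.partner_unique d1 (a2 b2))

theorem count_endz [DecidableEq V] {B : Multiset (List V)} (h : BS B) (v : V) :
    Multiset.count v (endz B) = if v ∈ (endz B).toFinset then 1 else 0 := by
  rw [Multiset.count_eq_of_nodup h.endz_nodup]
  simp

theorem card_toFinset_endz [DecidableEq V] {B : Multiset (List V)} (h : BS B) :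
    (endz B).toFinset.card = 2 * Multiset.card B := by
  rw [Multiset.toFinset_card_of_nodup h.endz_nodup, card_endz B h.len]

theorem card_split [DecidableEq V] (E₁ E₂ E₃ : Finset V)
    (h : ∀ v ∈ E₁, (v ∈ E₂ ∧ v ∉ E₃) ∨ (v ∉ E₂ ∧ v ∈ E₃)) :
    (E₁ ∩ E₂).card + (E₁ ∩ E₃).card = E₁.card := by
  rw [← Finset.card_union_of_disjoint]
  · congr 1
    ext v
    simp only [Finset.mem_union, Finset.mem_inter]
    constructor
    · rintro (h | h) <;> exact h.1
    · intro hv
      rcases h v hv with h' | h'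
      · exact Or.inl ⟨hv, h'.1⟩
      · exact Or.inr ⟨hv, h'.2⟩
  · rw [Finset.disjoint_left]
    intro v hv hv'
    simp only [Finset.mem_inter] at hv hv'
    rcases h v hv.1 with h' | h'
    · exact h'.2 hv'.2
    · exact h'.1 hv.2

theorem link [DecidableEq V] : ∀ (n : ℕ) (B₁ B₂ B₃ : Multiset (List V)), BS B₁ → BS B₂ → BS B₃ →
    Multiset.card B₁ + Multiset.card B₂ + Multiset.card B₃ = n → Odd n →
    (∀ v, Even (Multiset.count v (endz B₁) + Multiset.count v (endz B₂) +
      Multiset.count v (endz B₃))) →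
    ∃ (l₁ l₂ l₃ : List V) (X : Multiset (Sym2 V)), l₁.Nodup ∧ l₂.Nodup ∧ l₃.Nodup ∧
      l₁ ≠ [] ∧ l₂ ≠ [] ∧ l₃ ≠ [] ∧
      me l₁ + me l₂ + me l₃ = edges B₁ + edges B₂ + edges B₃ + (X + X) := by
  intro n
  induction n using Nat.strong_induction_on with
  | _ n ih =>
  intro B₁ B₂ B₃ h₁ h₂ h₃ hn hodd hev
  have hcase : ∀ v, (v ∈ (endz B₁).toFinset ∧ v ∈ (endz B₂).toFinset ∧ v ∉ (endz B₃).toFinset) ∨
      (v ∈ (endz B₁).toFinset ∧ v ∉ (endz B₂).toFinset ∧ v ∈ (endz B₃).toFinset) ∨
      (v ∉ (endz B₁).toFinset ∧ v ∈ (endz B₂).toFinset ∧ v ∈ (endz B₃).toFinset) ∨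
      (v ∉ (endz B₁).toFinset ∧ v ∉ (endz B₂).toFinset ∧ v ∉ (endz B₃).toFinset) := by
    intro v
    have := hev v
    rw [count_endz h₁, count_endz h₂, count_endz h₃] at this
    by_cases a1 : v ∈ (endz B₁).toFinset <;> by_cases a2 : v ∈ (endz B₂).toFinset <;>
      by_cases a3 : v ∈ (endz B₃).toFinset <;> simp only [a1, a2, a3, if_true, if_false] at this ⊢ <;>
      tauto
  have c12 := card_split (endz B₁).toFinset (endz B₂).toFinset (endz B₃).toFinset (by
    intro v hv; rcases hcase v with h | h | h | h <;> tauto)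
  have c21 := card_split (endz B₂).toFinset (endz B₁).toFinset (endz B₃).toFinset (by
    intro v hv; rcases hcase v with h | h | h | h <;> tauto)
  have c31 := card_split (endz B₃).toFinset (endz B₁).toFinset (endz B₂).toFinset (by
    intro v hv; rcases hcase v with h | h | h | h <;> tauto)
  rw [card_toFinset_endz h₁] at c12
  rw [card_toFinset_endz h₂, Finset.inter_comm (endz B₂).toFinset (endz B₁).toFinset] at c21
  rw [card_toFinset_endz h₃, Finset.inter_comm (endz B₃).toFinset (endz B₁).toFinset,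
    Finset.inter_comm (endz B₃).toFinset (endz B₂).toFinset] at c31
  obtain ⟨k, hk⟩ := hodd
  by_cases t12 : 2 < ((endz B₁).toFinset ∩ (endz B₂).toFinset).card
  · obtain ⟨u, v, huv, hu1, hv1, hu2, hv2, hp1, hp2⟩ := link_pair h₁ h₂ t12
    obtain ⟨C₁, g1, g2, g3, g4, g5⟩ := h₁.join hu1 hv1 huv hp1
    obtain ⟨C₂, f1, f2, f3, f4, f5⟩ := h₂.join hu2 hv2 huv hp2
    obtain ⟨l₁, l₂, l₃, X, q1, q2, q3, q4, q5, q6, q7⟩ := ih (n - 2) (by omega) C₁ C₂ B₃ g1 f1 h₃
      (by omega) ⟨k - 1, by omega⟩ (by
        intro w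
        have := hev w
        rw [← g4, ← f4, Multiset.count_add, Multiset.count_add] at this
        rw [Nat.even_iff] at this ⊢
        omega)
    refine ⟨l₁, l₂, l₃, X + {s(u,v)}, q1, q2, q3, q4, q5, q6, ?_⟩
    rw [q7, g2, f2]
    abel
  by_cases t13 : 2 < ((endz B₁).toFinset ∩ (endz B₃).toFinset).card
  · obtain ⟨u, v, huv, hu1, hv1, hu2, hv2, hp1, hp2⟩ := link_pair h₁ h₃ t13
    obtain ⟨C₁, g1, g2, g3, g4, g5⟩ := h₁.join hu1 hv1 huv hp1
    obtain ⟨C₂, f1, f2, f3, f4, f5⟩ := h₃.join hu2 hv2 huv hp2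
    obtain ⟨l₁, l₂, l₃, X, q1, q2, q3, q4, q5, q6, q7⟩ := ih (n - 2) (by omega) C₁ B₂ C₂ g1 h₂ f1
      (by omega) ⟨k - 1, by omega⟩ (by
        intro w
        have := hev w
        rw [← g4, ← f4, Multiset.count_add, Multiset.count_add] at this
        rw [Nat.even_iff] at this ⊢
        omega)
    refine ⟨l₁, l₂, l₃, X + {s(u,v)}, q1, q2, q3, q4, q5, q6, ?_⟩
    rw [q7, g2, f2]
    abel
  by_cases t23 : 2 < ((endz B₂).toFinset ∩ (endz B₃).toFinset).card
  · obtain ⟨u, v, huv, hu1, hv1, hu2, hv2, hp1, hp2⟩ := link_pair h₂ h₃ t23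
    obtain ⟨C₁, g1, g2, g3, g4, g5⟩ := h₂.join hu1 hv1 huv hp1
    obtain ⟨C₂, f1, f2, f3, f4, f5⟩ := h₃.join hu2 hv2 huv hp2
    obtain ⟨l₁, l₂, l₃, X, q1, q2, q3, q4, q5, q6, q7⟩ := ih (n - 2) (by omega) B₁ C₁ C₂ h₁ g1 f1
      (by omega) ⟨k - 1, by omega⟩ (by
        intro w
        have := hev w
        rw [← g4, ← f4, Multiset.count_add, Multiset.count_add] at this
        rw [Nat.even_iff] at this ⊢
        omega)
    refine ⟨l₁, l₂, l₃, X + {s(u,v)}, q1, q2, q3, q4, q5, q6, ?_⟩
    rw [q7, g2, f2]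
    abel
  have n1 : Multiset.card B₁ = 1 := by omega
  have n2 : Multiset.card B₂ = 1 := by omega
  have n3 : Multiset.card B₃ = 1 := by omega
  obtain ⟨b₁, rfl⟩ := Multiset.card_eq_one.mp n1
  obtain ⟨b₂, rfl⟩ := Multiset.card_eq_one.mp n2
  obtain ⟨b₃, rfl⟩ := Multiset.card_eq_one.mp n3
  refine ⟨b₁, b₂, b₃, 0, ?_, ?_, ?_, ?_, ?_, ?_, ?_⟩
  · simpa [verts] using h₁.nd
  · simpa [verts] using h₂.nd
  · simpa [verts] using h₃.nd
  · rintro rfl; simpa using h₁.len [] (by simp)
  · rintro rfl; simpa using h₂.len [] (by simp)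
  · rintro rfl; simpa using h₃.len [] (by simp)
  · simp [edges]

end POC
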