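import Mathlib
set_option autoImplicit false
namespace POC
universe u
variable {V : Type u}

/-- a finite type of even cardinality has a fixed point free involution -/
theorem exists_involution {α : Type*} [Fintype α] (h : Even (Fintype.card α)) :
    ∃ p : α → α, ∀ a, p (p a) = a ∧ p a ≠ a := by
  obtain ⟨k, hk⟩ := h
  have e : α ≃ (Fin k ⊕ Fin k) := Fintype.equivOfCardEq (by simp [hk])
  refine ⟨fun a => e.symm (Sum.swap (e a)), fun a => ⟨by simp, ?_⟩⟩
  intro hh
  have h1 : Sum.swap (e a) = e a := by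
    have := congrArg e hh
    simpa using this
  cases h2 : e a with
  | inl x => rw [h2] at h1; simp at h1
  | inr x => rw [h2] at h1; simp at h1

/-- pairing inside the fibres of a map -/
theorem exists_pairing {α β : Type*} [Finite α] (f : α → β)
    (h : ∀ b, Even (Nat.card {a // f a = b})) :
    ∃ p : α → α, (∀ a, p (p a) = a) ∧ (∀ a, p a ≠ a) ∧ ∀ a, f (p a) = f a := by
  classical
  have : Fintype α := Fintype.ofFinite α
  have hq : ∀ b, ∃ p : {a // f a = b} → {a // f a = b}, ∀ a, p (p a) = a ∧ p a ≠ a := by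
    intro b
    apply exists_involution
    have := h b
    rwa [Nat.card_eq_fintype_card] at this
  choose q hq using hq
  have key : ∀ (b : β) (x : {a // f a = b}) , q (f x.1) ⟨x.1, rfl⟩ = ((q b x).1) := by
    rintro b ⟨x, rfl⟩
    rfl
  refine ⟨fun a => (q (f a) ⟨a, rfl⟩).1, ?_, ?_, ?_⟩
  · intro a
    have h1 := key (f a) (q (f a) ⟨a, rfl⟩)
    show (q (f (q (f a) ⟨a, rfl⟩).1) ⟨(q (f a) ⟨a, rfl⟩).1, rfl⟩).1 = a
    rw [h1, (hq (f a) ⟨a, rfl⟩).1]
  · intro a ha
    exact (hq (f a) ⟨a, rfl⟩).2 (Subtype.ext ha)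
  · intro a
    exact (q (f a) ⟨a, rfl⟩).2

/-- Two fixed point free involutions have a common antisymmetric colouring. -/
theorem exists_coloring {X : Type*} (r p : X → X) (hr : ∀ x, r (r x) = x) (hr' : ∀ x, r x ≠ x)
    (hp : ∀ x, p (p x) = x) (hp' : ∀ x, p x ≠ x) :
    ∃ χ : X → Bool, (∀ x, χ (r x) = !χ x) ∧ ∀ x, χ (p x) = !χ x := by
  classical
  let R : Equiv.Perm X := ⟨r, r, hr, hr⟩
  let P : Equiv.Perm X := ⟨p, p, hp, hp⟩
  have hRR : R * R = 1 := by ext x; exact hr x
  have hPP : P * P = 1 := by ext x; exact hp x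
  have hRi : R⁻¹ = R := inv_eq_of_mul_eq_one_left hRR
  have hPi : P⁻¹ = P := inv_eq_of_mul_eq_one_left hPP
  let φ : Equiv.Perm X := P * R
  have hconj : R * φ * R⁻¹ = φ⁻¹ := by
    simp only [φ, mul_inv_rev, hRi, hPi]
    rw [mul_assoc, mul_assoc, hRR, mul_one]
  have hpow : ∀ m : ℤ, R * φ ^ m = φ ^ (-m) * R := by
    intro m
    have : R * φ ^ m * R⁻¹ = φ ^ (-m) := by
      rw [← conj_zpow, hconj, inv_zpow, zpow_neg]
    rw [← this, mul_assoc, inv_mul_cancel, mul_one]
  have hns : ∀ x, ¬ φ.SameCycle x (R x) := by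
    rintro x ⟨k, hk⟩
    rcases Int.even_or_odd' k with ⟨m, rfl | rfl⟩
    · have h1 : (φ ^ m) x = R ((φ ^ m) x) := by
        have h2 : (φ ^ (-m)) ((φ ^ (2 * m)) x) = (φ ^ (-m)) (R x) := by rw [hk]
        rw [← Equiv.Perm.mul_apply, ← zpow_add, ← Equiv.Perm.mul_apply, ← hpow,
          Equiv.Perm.mul_apply] at h2
        have h3 : -m + 2 * m = m := by ring
        rwa [h3] at h2
      exact hr' _ h1.symm
    · have h1 : P (R ((φ ^ m) x)) = R ((φ ^ m) x) := by
        have h2 : (φ ^ (-m)) ((φ ^ (2 * m + 1)) x) = (φ ^ (-m)) (R x) := by rw [hk]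
        rw [← Equiv.Perm.mul_apply, ← zpow_add, ← Equiv.Perm.mul_apply (φ ^ (-m)) R, ← hpow,
          Equiv.Perm.mul_apply] at h2
        have h3 : -m + (2 * m + 1) = 1 + m := by ring
        rw [h3, zpow_add, zpow_one] at h2
        exact h2
      exact hp' _ h1
  let s := Equiv.Perm.SameCycle.setoid φ
  let _ : LinearOrder (Quotient s) := linearOrderOfSTO WellOrderingRel
  have hq1 : ∀ x, (Quotient.mk s x) ≠ Quotient.mk s (r x) := by
    intro x hx
    exact hns x (Quotient.exact hx)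
  have hq2 : ∀ x, (Quotient.mk s (p x)) = Quotient.mk s (r x) := by
    intro x
    apply Quotient.sound
    show φ.SameCycle (p x) (r x)
    refine Equiv.Perm.SameCycle.symm ⟨1, ?_⟩
    simp only [zpow_one]
    show P (R (r x)) = p x
    show p (r (r x)) = p x
    rw [hr]
  have hq3 : ∀ x, (Quotient.mk s (r (p x))) = Quotient.mk s x := by
    intro x
    apply Quotient.sound
    show φ.SameCycle (r (p x)) x
    refine ⟨1, ?_⟩
    simp only [zpow_one]
    show p (r (r (p x))) = x
    rw [hr, hp]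
  refine ⟨fun x => decide (Quotient.mk s x < Quotient.mk s (r x)), ?_, ?_⟩
  · intro x
    simp only [hr]
    rcases lt_or_gt_of_ne (hq1 x) with h | h
    · simp [h, not_lt_of_gt h]
    · simp [h, not_lt_of_gt h]
  · intro x
    simp only [hq2, hq3]
    rcases lt_or_gt_of_ne (hq1 x) with h | h
    · simp [h, not_lt_of_gt h]
    · simp [h, not_lt_of_gt h]

end POC
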