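import Pool.Agent.Hhelper38.PocA
set_option autoImplicit false
namespace POC
universe u
variable {V : Type u}

theorem BS.endz_sub {B : Multiset (List V)} (hB : BS B) {v : V} (h : v ∈ endz B) : v ∈ verts B :=
  Multiset.mem_of_le (endz_le B hB.len) h

theorem mem_iff_of_add [DecidableEq V] {E E' : Multiset V} (hE : E.Nodup) (hE' : E'.Nodup) {v u w : V}
    (h : E' + {u} = E + {w}) : v ∈ E' ↔ ((v ∈ E ∧ v ≠ u) ∨ (v = w ∧ (u = w → v ∈ E))) := by
  have h1 := congrArg (Multiset.count v) h
  rw [Multiset.count_add, Multiset.count_add, Multiset.count_singleton, Multiset.count_singleton,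
    Multiset.count_eq_of_nodup hE, Multiset.count_eq_of_nodup hE'] at h1
  by_cases a1 : v ∈ E' <;> by_cases a2 : v ∈ E <;> by_cases a3 : v = u <;> by_cases a4 : v = w <;>
    simp [a1, a2, a3, a4] at h1 ⊢ <;> (subst_vars; simp_all) <;>
    exact fun hh => a3 hh.symm

/-- adding an edge between two vertices which are absent or ends -/
theorem BS.add_edge [DecidableEq V] {B : Multiset (List V)} (hB : BS B) {u w : V} (huw : u ≠ w)
    (hu : u ∉ verts B ∨ u ∈ endz B) (hw : w ∉ verts B ∨ w ∈ endz B) (hp : ¬ Partner B u w) :
    ∃ B', BS B' ∧ edges B' = edges B + {s(u, w)} ∧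
      (∀ v, v ∈ verts B' ↔ v ∈ verts B ∨ v = u ∨ v = w) ∧
      (∀ v, v ∈ endz B' ↔ ((v ∈ endz B ∧ v ≠ u ∧ v ≠ w) ∨ (v = u ∧ u ∉ verts B) ∨
        (v = w ∧ w ∉ verts B))) ∧
      (u ∉ verts B → w ∉ verts B → Multiset.card B' = Multiset.card B + 1) ∧
      (u ∉ verts B → w ∈ verts B → Multiset.card B' = Multiset.card B) ∧
      (u ∈ verts B → w ∉ verts B → Multiset.card B' = Multiset.card B) := by
  have hsub : ∀ v, v ∈ endz B → v ∈ verts B := fun v h => hB.endz_sub h
  rcases hu with hu | hu
  · rcases hw with hw | hw
    · refine ⟨[u, w] ::ₘ B, hB.add_new huw hu hw, ?_, ?_, ?_, ?_, ?_, ?_⟩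
      · rw [edges_cons]
        simp [me, le, add_comm]
      · intro v
        rw [verts_cons]
        simp
        tauto
      · intro v
        rw [endz_cons]
        simp [ends]
        have := hsub v
        constructor
        · rintro (rfl | rfl | h)
          · exact Or.inr (Or.inl ⟨rfl, hu⟩)
          · exact Or.inr (Or.inr ⟨rfl, hw⟩)
          · refine Or.inl ⟨h, ?_, ?_⟩
            · rintro rfl; exact hu (hsub _ h)
            · rintro rfl; exact hw (hsub _ h)
        · tauto
      · intros; simp
      · intro _ h; exact absurd h hw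
      · intro h; exact absurd h hu
    · obtain ⟨B', h1, h2, h3, h4, h6⟩ := hB.extend hw hu
      refine ⟨B', h1, ?_, ?_, ?_, ?_, ?_, ?_⟩
      · rw [h2, Sym2.eq_swap]
      · intro v; rw [h3]; simp
        constructor
        · rintro (h | rfl)
          · exact Or.inl h
          · exact Or.inr (Or.inl rfl)
        · rintro (h | rfl | rfl)
          · exact Or.inl h
          · exact Or.inr rfl
          · exact Or.inl (hsub _ hw)
      · intro v
        rw [mem_iff_of_add hB.endz_nodup h1.endz_nodup h4]
        have := hsub v
        have h5 := hsub w hw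
        constructor
        · rintro (⟨a, b⟩ | ⟨a, b⟩)
          · by_cases hvu : v = u
            · subst hvu; exact absurd (hsub _ a) hu
            · exact Or.inl ⟨a, hvu, b⟩
          · exact Or.inr (Or.inl ⟨a, hu⟩)
        · rintro (⟨a, b, c⟩ | ⟨a, b⟩ | ⟨a, b⟩)
          · exact Or.inl ⟨a, c⟩
          · exact Or.inr ⟨a, fun h => absurd h.symm huw⟩
          · exact absurd h5 b
      · intro _ h; exact absurd (hsub _ hw) h
      · intros; exact h6
      · intro h; exact absurd h hu
  · rcases hw with hw | hw
    · obtain ⟨B', h1, h2, h3, h4, h6⟩ := hB.extend hu hw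
      refine ⟨B', h1, h2, ?_, ?_, ?_, ?_, ?_⟩
      · intro v; rw [h3]; simp
        have := hsub v
        constructor
        · rintro (h | rfl)
          · exact Or.inl h
          · exact Or.inr (Or.inr rfl)
        · rintro (h | rfl | rfl)
          · exact Or.inl h
          · exact Or.inl (hsub _ hu)
          · exact Or.inr rfl
      · intro v
        rw [mem_iff_of_add hB.endz_nodup h1.endz_nodup h4]
        have h5 := hsub u hu
        constructor
        · rintro (⟨a, b⟩ | ⟨a, b⟩)
          · by_cases hvw : v = w
            · subst hvw; exact absurd (hsub _ a) hw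
            · exact Or.inl ⟨a, b, hvw⟩
          · exact Or.inr (Or.inr ⟨a, hw⟩)
        · rintro (⟨a, b, c⟩ | ⟨a, b⟩ | ⟨a, b⟩)
          · exact Or.inl ⟨a, b⟩
          · exact absurd h5 b
          · exact Or.inr ⟨a, fun h => absurd h huw⟩
      · intro h; exact absurd (hsub _ hu) h
      · intro h; exact absurd (hsub _ hu) h
      · intros; exact h6
    · obtain ⟨B', h1, h2, h3, h4, h5⟩ := hB.join hu hw huw hp
      refine ⟨B', h1, h2, ?_, ?_, ?_, ?_, ?_⟩
      · intro v; rw [h3]
        constructor
        · exact Or.inl
        · rintro (h | rfl | rfl)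
          · exact h
          · exact hsub _ hu
          · exact hsub _ hw
      · intro v
        have hn := hB.endz_nodup
        rw [← h4] at hn ⊢
        rw [Multiset.nodup_add] at hn
        have hd := hn.2.2
        rw [Multiset.disjoint_left] at hd
        constructor
        · intro hv
          have := hd hv
          simp at this
          exact Or.inl ⟨Multiset.mem_add.2 (Or.inl hv), this.1, this.2⟩
        · rintro (⟨a, b, c⟩ | ⟨a, b⟩ | ⟨a, b⟩)
          · rw [Multiset.mem_add] at a
            rcases a with a | a
            · exact a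
            · simp [b, c] at a
          · exact absurd (hsub _ hu) b
          · exact absurd (hsub _ hw) b
      · intro h; exact absurd (hsub _ hu) h
      · intro h; exact absurd (hsub _ hu) h
      · intro _ h; exact absurd (hsub _ hw) h

end POC
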