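import Pool.Agent.Hhelper38.PocD
set_option autoImplicit false
namespace POC
universe u
variable {V : Type u}

theorem me_iterate (f : V → V) (k : ℕ) : ∀ x, me (List.iterate f x (k + 1)) =
    ((List.iterate f x k : List V) : Multiset V).map (fun v => s(v, f v)) := by
  induction k with
  | zero => intro x; simp [List.iterate, me, le]
  | succ k ih =>
    intro x
    have h1 : List.iterate f x (k + 1 + 1) = x :: f x :: List.iterate f (f (f x)) k := by
      simp [List.iterate]
    have h2 : List.iterate f (f x) (k + 1) = f x :: List.iterate f (f (f x)) k := by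
      simp [List.iterate]
    have h3 : List.iterate f x (k + 1) = x :: List.iterate f (f x) k := by simp [List.iterate]
    rw [h1, me_cons_cons, ← h2, ih, h3]
    simp

variable [Fintype V] [DecidableEq V]

/-- the cyclic list ending in `a` -/
theorem blk_eq (σ : Equiv.Perm V) {a : V} (ha : a ∈ σ.support) :
    ∃ k, σ.toList (σ a) = List.iterate σ (σ a) (k + 1) ∧ (σ.toList (σ a)) = List.iterate σ (σ a) k ++ [a] := by
  have h0 : σ a ∈ σ.support := by simpa using ha
  have h1 : (σ.cycleOf (σ a)).support.card ≠ 0 := by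
    rw [← Equiv.Perm.length_toList]
    exact (Equiv.Perm.length_toList_pos_of_mem_support _ _ h0).ne'
  obtain ⟨k, hk⟩ := Nat.exists_eq_succ_of_ne_zero h1
  refine ⟨k, ?_, ?_⟩
  · rw [Equiv.Perm.toList, hk]
  · rw [Equiv.Perm.toList, hk, Nat.succ_eq_add_one, List.iterate_add]
    congr 1
    simp only [List.iterate, List.cons.injEq, and_true]
    have h2 : (σ ^ (k + 1)) (σ a) = σ a := by
      have := Equiv.Perm.pow_mod_card_support_cycleOf_self_apply σ (k + 1) (σ a)
      rw [hk] at this
      simpa using this.symm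
    rw [← Equiv.Perm.coe_pow]
    apply σ.injective
    rw [← Equiv.Perm.mul_apply, ← pow_succ', h2]

theorem me_blk (σ : Equiv.Perm V) {a : V} (ha : a ∈ σ.support) :
    me (σ.toList (σ a)) + {s(a, σ a)} = ((σ.toList (σ a) : List V) : Multiset V).map (fun v => s(v, σ v)) := by
  obtain ⟨k, h1, h2⟩ := blk_eq σ ha
  nth_rw 2 [h2]
  rw [h1, me_iterate, ← Multiset.coe_add, Multiset.map_add]
  simp

theorem ends_blk (σ : Equiv.Perm V) {a : V} (ha : a ∈ σ.support) :
    ends (σ.toList (σ a)) = {σ a, a} := by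
  obtain ⟨k, h1, h2⟩ := blk_eq σ ha
  unfold ends
  have h3 : (σ.toList (σ a)).head? = some (σ a) := by
    rw [h1]; simp [List.iterate]
  have h4 : (σ.toList (σ a)).getLast? = some a := by
    rw [h2]; simp
  rw [h3, h4]
  rfl

/-- `A` picks exactly one element of every nontrivial cycle of `σ` -/
structure IsTrans (σ : Equiv.Perm V) (A : Finset V) : Prop where
  sub : ∀ a ∈ A, a ∈ σ.support
  ex : ∀ x ∈ σ.support, ∃ a ∈ A, σ.SameCycle x a
  uniq : ∀ a ∈ A, ∀ b ∈ A, σ.SameCycle a b → a = b

theorem exists_trans (σ : Equiv.Perm V) (Φ : V → Prop)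
    (hΦ : ∀ x ∈ σ.support, ∃ a, σ.SameCycle x a ∧ Φ a) :
    ∃ A : Finset V, IsTrans σ A ∧ ∀ a ∈ A, Φ a := by
  classical
  let s := Equiv.Perm.SameCycle.setoid σ
  let g : Quotient s → V → Prop := fun c a => Quotient.mk s a = c ∧ Φ a
  have hg : ∀ x ∈ σ.support, ∃ a, g (Quotient.mk s x) a := by
    intro x hx
    obtain ⟨a, h1, h2⟩ := hΦ x hx
    exact ⟨a, Quotient.sound h1.symm, h2⟩
  let r : Quotient s → V := fun c => if h : ∃ a, g c a then h.choose else c.out
  have hr : ∀ c, (∃ a, g c a) → g c (r c) := by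
    intro c h
    simp only [r]
    rw [dif_pos h]
    exact h.choose_spec
  refine ⟨σ.support.image (fun x => r (Quotient.mk s x)), ⟨?_, ?_, ?_⟩, ?_⟩
  · intro a ha
    rw [Finset.mem_image] at ha
    obtain ⟨x, hx, rfl⟩ := ha
    have := (hr _ (hg x hx)).1
    have h2 : σ.SameCycle (r (Quotient.mk s x)) x := Quotient.exact this
    rw [Equiv.Perm.mem_support] at hx ⊢
    intro h3
    apply hx
    exact (h2.apply_eq_self_iff).1 h3
  · intro x hx
    refine ⟨_, Finset.mem_image_of_mem _ hx, ?_⟩
    exact (Quotient.exact (hr _ (hg x hx)).1 : σ.SameCycle _ _).symm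
  · intro a ha b hb hab
    rw [Finset.mem_image] at ha hb
    obtain ⟨x, hx, rfl⟩ := ha
    obtain ⟨y, hy, rfl⟩ := hb
    have h1 : σ.SameCycle (r (Quotient.mk s x)) x := Quotient.exact (hr _ (hg x hx)).1
    have h2 : σ.SameCycle (r (Quotient.mk s y)) y := Quotient.exact (hr _ (hg y hy)).1
    have h3 : Quotient.mk s x = Quotient.mk s y := Quotient.sound ((h1.symm.trans hab).trans h2)
    rw [h3]
  · intro a ha
    rw [Finset.mem_image] at ha
    obtain ⟨x, hx, rfl⟩ := ha
    exact (hr _ (hg x hx)).2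

/-- the block system obtained from the cycles of `σ` by deleting the edges `a, σ a` for `a ∈ A` -/
def cyc (σ : Equiv.Perm V) (A : Finset V) : Multiset (List V) := A.val.map (fun a => σ.toList (σ a))

theorem verts_cyc (σ : Equiv.Perm V) {A : Finset V} (hA : IsTrans σ A) : verts (cyc σ A) = σ.support.val := by
  have hn : (verts (cyc σ A)).Nodup := by
    unfold verts cyc
    rw [Multiset.bind_map, Multiset.nodup_bind]
    refine ⟨fun a _ => by simpa using Equiv.Perm.nodup_toList σ (σ a), ?_⟩
    have := A.nodup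
    apply Multiset.Nodup.pairwise _ this
    intro a ha b hb hab
    simp only [Function.onFun]
    rw [Multiset.disjoint_left]
    intro x hx hx'
    rw [Multiset.mem_coe, Equiv.Perm.mem_toList_iff] at hx hx'
    apply hab
    apply hA.uniq a ha b hb
    have h1 : σ.SameCycle a x := by simpa using hx.1
    have h2 : σ.SameCycle b x := by simpa using hx'.1
    exact h1.trans h2.symm
  rw [Multiset.Nodup.ext hn (Finset.nodup _)]
  intro x
  unfold verts cyc
  rw [Multiset.bind_map, Multiset.mem_bind]
  constructor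
  · rintro ⟨a, ha, hx⟩
    rw [Multiset.mem_coe, Equiv.Perm.mem_toList_iff] at hx
    have h1 : σ.SameCycle a x := by simpa using hx.1
    have h2 := hA.sub a ha
    rw [Finset.mem_val, Equiv.Perm.mem_support] at *
    intro h3
    exact h2 (h1.apply_eq_self_iff.2 h3)
  · intro hx
    obtain ⟨a, ha, h⟩ := hA.ex x hx
    refine ⟨a, ha, ?_⟩
    rw [Multiset.mem_coe, Equiv.Perm.mem_toList_iff]
    refine ⟨by simpa using h.symm, by simpa using hA.sub a ha⟩

theorem BS_cyc (σ : Equiv.Perm V) {A : Finset V} (hA : IsTrans σ A) : BS (cyc σ A) := by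
  constructor
  · intro b hb
    unfold cyc at hb
    rw [Multiset.mem_map] at hb
    obtain ⟨a, ha, rfl⟩ := hb
    rw [Equiv.Perm.two_le_length_toList_iff_mem_support]
    simpa using hA.sub a ha
  · rw [verts_cyc σ hA]; exact Finset.nodup _

theorem edges_cyc (σ : Equiv.Perm V) {A : Finset V} (hA : IsTrans σ A) :
    edges (cyc σ A) + A.val.map (fun a => s(a, σ a)) = σ.support.val.map (fun v => s(v, σ v)) := by
  rw [← verts_cyc σ hA]
  unfold edges verts cyc
  rw [Multiset.bind_map, Multiset.bind_map, Multiset.map_bind, ← Multiset.bind_singleton, ← Multiset.bind_add]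
  apply Multiset.bind_congr
  intro a ha
  exact me_blk σ (hA.sub a ha)

theorem mem_endz_cyc (σ : Equiv.Perm V) {A : Finset V} (hA : IsTrans σ A) (v : V) :
    v ∈ endz (cyc σ A) ↔ v ∈ A ∨ σ⁻¹ v ∈ A := by
  unfold endz cyc
  rw [Multiset.bind_map, Multiset.mem_bind]
  constructor
  · rintro ⟨a, ha, hv⟩
    rw [ends_blk σ (hA.sub a ha)] at hv
    simp at hv
    rcases hv with rfl | rfl
    · right; simpa using ha
    · left; exact ha
  · rintro (h | h)
    · refine ⟨v, h, ?_⟩
      rw [ends_blk σ (hA.sub v h)]; simp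
    · refine ⟨σ⁻¹ v, h, ?_⟩
      rw [ends_blk σ (hA.sub _ h)]; simp

theorem card_cyc (σ : Equiv.Perm V) (A : Finset V) : Multiset.card (cyc σ A) = A.card := by
  simp [cyc]

end POC
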