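import Pool.Agent.Hhelper38.PocE
set_option autoImplicit false
namespace POC
universe u
variable {V : Type u} [Fintype V] [DecidableEq V]

/-- membership in the set of endpoints of the chosen edges -/
def InS (σ : Equiv.Perm V) (A : Finset V) (v : V) : Prop := v ∈ A ∨ σ⁻¹ v ∈ A

theorem inS_iff (σ : Equiv.Perm V) (A : Finset V) (v : V) : InS σ A v ↔ ∃ a ∈ A, v = a ∨ v = σ a := by
  unfold InS
  constructor
  · rintro (h | h)
    · exact ⟨v, h, Or.inl rfl⟩
    · exact ⟨_, h, Or.inr (by simp)⟩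
  · rintro ⟨a, ha, rfl | rfl⟩
    · exact Or.inl ha
    · right; simpa using ha

theorem inS_insert (σ : Equiv.Perm V) (A : Finset V) (a v : V) :
    InS σ (insert a A) v ↔ v = a ∨ v = σ a ∨ InS σ A v := by
  rw [inS_iff, inS_iff]
  simp only [Finset.mem_insert]
  constructor
  · rintro ⟨b, rfl | hb, h⟩
    · tauto
    · exact Or.inr (Or.inr ⟨b, hb, h⟩)
  · rintro (h | h | ⟨b, hb, h⟩)
    · exact ⟨a, Or.inl rfl, Or.inl h⟩
    · exact ⟨a, Or.inl rfl, Or.inr h⟩
    · exact ⟨b, Or.inr hb, h⟩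

/-- the matching of chosen edges as a block system -/
theorem pairs_spec (σ : Equiv.Perm V) {A : Finset V} (hA : IsTrans σ A) :
    ∃ B : Multiset (List V), BS B ∧ edges B = A.val.map (fun a => s(a, σ a)) ∧
      (∀ v, v ∈ verts B ↔ InS σ A v) ∧ (∀ v, v ∈ endz B ↔ InS σ A v) := by
  refine ⟨A.val.map (fun a => [a, σ a]), ?_, ?_, ?_, ?_⟩
  · constructor
    · intro b hb
      rw [Multiset.mem_map] at hb
      obtain ⟨a, ha, rfl⟩ := hb
      simp
    · unfold verts
      rw [Multiset.bind_map, Multiset.nodup_bind]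
      refine ⟨?_, ?_⟩
      · intro a ha
        have := hA.sub a ha
        rw [Equiv.Perm.mem_support] at this
        simpa using fun h => this h.symm
      · apply Multiset.Nodup.pairwise _ A.nodup
        intro a ha b hb hab
        simp only [Function.onFun]
        rw [Multiset.disjoint_left]
        intro x hx hx'
        simp at hx hx'
        apply hab
        apply hA.uniq a ha b hb
        have h1 : σ.SameCycle a x := by
          rcases hx with rfl | rfl
          · exact Equiv.Perm.SameCycle.refl _ _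
          · exact (Equiv.Perm.sameCycle_apply_right).2 (Equiv.Perm.SameCycle.refl _ _)
        have h2 : σ.SameCycle b x := by
          rcases hx' with rfl | rfl
          · exact Equiv.Perm.SameCycle.refl _ _
          · exact (Equiv.Perm.sameCycle_apply_right).2 (Equiv.Perm.SameCycle.refl _ _)
        exact h1.trans h2.symm
  · unfold edges
    rw [Multiset.bind_map, ← Multiset.bind_singleton]
    apply Multiset.bind_congr
    intro a ha
    rfl
  · intro v
    rw [inS_iff]
    unfold verts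
    rw [Multiset.bind_map, Multiset.mem_bind]
    constructor
    · rintro ⟨a, ha, h⟩
      exact ⟨a, ha, by simpa using h⟩
    · rintro ⟨a, ha, h⟩
      exact ⟨a, ha, by simpa using h⟩
  · intro v
    rw [inS_iff]
    unfold endz
    rw [Multiset.bind_map, Multiset.mem_bind]
    constructor
    · rintro ⟨a, ha, h⟩
      exact ⟨a, ha, by simpa [ends] using h⟩
    · rintro ⟨a, ha, h⟩
      exact ⟨a, ha, by simpa [ends] using h⟩

theorem endz_step {V : Type u} {S1 S2 E W E' : V → Prop} {a b : V} (hne : a ≠ b)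
    (hE : ∀ v, E v ↔ ((S1 v ∧ ¬ S2 v) ∨ (¬ S1 v ∧ S2 v))) (hW : ∀ v, W v ↔ S1 v ∨ S2 v)
    (hE' : ∀ v, E' v ↔ ((E v ∧ v ≠ a ∧ v ≠ b) ∨ (v = a ∧ ¬ W a) ∨ (v = b ∧ ¬ W b)))
    (fa : ¬ S2 a) (fb : ¬ S2 b) (v : V) :
    E' v ↔ ((S1 v ∧ ¬ (v = a ∨ v = b ∨ S2 v)) ∨ (¬ S1 v ∧ (v = a ∨ v = b ∨ S2 v))) := by
  rw [hE', hE, hW, hW]
  by_cases e1 : v = a
  · subst e1
    simp [hne, fa]
  · by_cases e2 : v = b
    · subst e2
      simp [e1, fb]
    · simp [e1, e2]

theorem build (σ τ : Equiv.Perm V) {A₁ : Finset V} (hA₁ : IsTrans σ A₁)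
    (hτ3 : ∀ v ∈ τ.support, τ (τ v) ≠ v) (Q : Finset V) (hQ : ∀ q ∈ Q, q ∈ τ.support)
    (hQ' : ∀ q ∈ Q, ∀ r ∈ Q, τ.SameCycle q r → q = r) :
    ∃ (A : Finset V) (B : Multiset (List V)), A.card = Q.card ∧ (∀ a ∈ A, a ∈ τ.support) ∧
      (∀ a ∈ A, ∃ q ∈ Q, τ.SameCycle q a) ∧ (∀ q ∈ Q, ∃ a ∈ A, τ.SameCycle q a) ∧
      (∀ a ∈ A, ∀ b ∈ A, τ.SameCycle a b → a = b) ∧ BS B ∧
      edges B = A₁.val.map (fun a => s(a, σ a)) + A.val.map (fun a => s(a, τ a)) ∧
      (∀ v, v ∈ verts B ↔ InS σ A₁ v ∨ InS τ A v) ∧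
      (∀ v, v ∈ endz B ↔ ((InS σ A₁ v ∧ ¬ InS τ A v) ∨ (¬ InS σ A₁ v ∧ InS τ A v))) := by
  induction Q using Finset.induction_on with
  | empty =>
    obtain ⟨B, h1, h2, h3, h4⟩ := pairs_spec σ hA₁
    refine ⟨∅, B, rfl, by simp, by simp, by simp, by simp, h1, by simpa using h2, ?_, ?_⟩
    · intro v; rw [h3]; simp [InS]
    · intro v; rw [h4]; simp [InS]
  | insert q Q hq ih =>
    obtain ⟨A, B, g1, g2, g3, g4, g5, g6, g7, g8, g9⟩ := ih (fun r hr => hQ r (by simp [hr]))
      (fun r hr s hs => hQ' r (by simp [hr]) s (by simp [hs]))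
    have hqs : q ∈ τ.support := hQ q (by simp)
    -- the cycle of `q` is untouched
    have hfree : ∀ w, τ.SameCycle q w → ¬ InS τ A w := by
      intro w hw hin
      rw [inS_iff] at hin
      obtain ⟨a, ha, hwa⟩ := hin
      have h1 : τ.SameCycle a w := by
        rcases hwa with rfl | rfl
        · exact Equiv.Perm.SameCycle.refl _ _
        · exact (Equiv.Perm.sameCycle_apply_right).2 (Equiv.Perm.SameCycle.refl _ _)
      obtain ⟨r, hr, hra⟩ := g3 a ha
      have h2 : q = r := hQ' q (by simp) r (by simp [hr]) (hw.trans (h1.symm.trans hra.symm))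
      subst h2
      exact hq hr
    have habs : ∀ w, τ.SameCycle q w → (w ∉ verts B ∨ w ∈ endz B) := by
      intro w hw
      have := hfree w hw
      by_cases h : InS σ A₁ w
      · right; rw [g9]; exact Or.inl ⟨h, this⟩
      · left; rw [g8]; tauto
    have hchoice : ∃ a, τ.SameCycle q a ∧ ¬ Partner B a (τ a) := by
      by_cases h : Partner B q (τ q)
      · refine ⟨τ q, (Equiv.Perm.sameCycle_apply_right).2 (Equiv.Perm.SameCycle.refl _ _), ?_⟩
        intro h'
        have := g6.partner_unique h.symm h'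
        exact hτ3 q hqs this.symm
      · exact ⟨q, Equiv.Perm.SameCycle.refl _ _, h⟩
    obtain ⟨a, haq, hap⟩ := hchoice
    have hτa : τ.SameCycle q (τ a) := (Equiv.Perm.sameCycle_apply_right).2 haq
    have has : a ∈ τ.support := by
      rw [Equiv.Perm.mem_support] at hqs ⊢
      intro h
      exact hqs (haq.apply_eq_self_iff.2 h)
    have hne : a ≠ τ a := fun h => (Equiv.Perm.mem_support.1 has) h.symm
    have haA : a ∉ A := fun h => hfree a haq (Or.inl h)
    obtain ⟨B', k1, k2, k3, k4, -⟩ := g6.add_edge hne (habs a haq) (habs _ hτa) hap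
    refine ⟨insert a A, B', ?_, ?_, ?_, ?_, ?_, k1, ?_, ?_, ?_⟩
    · rw [Finset.card_insert_of_notMem haA, Finset.card_insert_of_notMem hq, g1]
    · intro b hb
      rw [Finset.mem_insert] at hb
      rcases hb with rfl | hb
      · exact has
      · exact g2 b hb
    · intro b hb
      rw [Finset.mem_insert] at hb
      rcases hb with rfl | hb
      · exact ⟨q, by simp, haq⟩
      · obtain ⟨r, hr, h⟩ := g3 b hb
        exact ⟨r, by simp [hr], h⟩
    · intro r hr
      rw [Finset.mem_insert] at hr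
      rcases hr with rfl | hr
      · exact ⟨a, by simp, haq⟩
      · obtain ⟨b, hb, h⟩ := g4 r hr
        exact ⟨b, by simp [hb], h⟩
    · intro b hb c hc hbc
      rw [Finset.mem_insert] at hb hc
      rcases hb with rfl | hb <;> rcases hc with rfl | hc
      · rfl
      · exact absurd (Or.inl hc) (hfree c (haq.trans hbc))
      · exact absurd (Or.inl hb) (hfree b (haq.trans hbc.symm))
      · exact g5 b hb c hc hbc
    · rw [k2, g7, Finset.insert_val_of_notMem haA, Multiset.map_cons, ← Multiset.singleton_add]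
      abel
    · intro v
      rw [k3, g8, inS_insert]
      tauto
    · intro v
      rw [inS_insert]
      exact endz_step hne g9 g8 k4 (hfree a haq) (hfree _ hτa) v

end POC
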