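import Pool.Agent.Hhelper38.PocC
set_option autoImplicit false
namespace POC
universe u
variable {V : Type u}

theorem two_factor [Fintype V] [DecidableEq V] (G : SimpleGraph V) [DecidableRel G.Adj]
    (hev : ∀ v, Even (G.degree v)) (hle : ∀ v, G.degree v ≤ 4) :
    ∃ σ τ : Equiv.Perm V, G.edgeFinset.val =
      σ.support.val.map (fun v => s(v, σ v)) + τ.support.val.map (fun v => s(v, τ v)) := by
  have hfib : ∀ v, ((Finset.univ : Finset G.Dart).filter (fun d => d.fst = v)).card = G.degree v :=
    fun v => G.dart_fst_fiber_card_eq_degree v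
  obtain ⟨p, hp1, hp2, hp3⟩ := exists_pairing (fun d : G.Dart => d.fst) (by
    intro v
    rw [Nat.card_eq_fintype_card, Fintype.card_subtype, hfib]
    exact hev v)
  replace hp3 : ∀ d, (p d).fst = d.fst := hp3
  have hs1 : ∀ d : G.Dart, d.symm.symm = d := fun d => d.symm_symm
  have hs2 : ∀ d : G.Dart, d.symm ≠ d := fun d => d.symm_ne
  obtain ⟨χ, hχ1, hχ2⟩ := exists_coloring SimpleGraph.Dart.symm p hs1 hs2 hp1 hp2
  have hhalf : ∀ v, ((Finset.univ : Finset G.Dart).filter (fun d => d.fst = v ∧ χ d = true)).card =
      ((Finset.univ : Finset G.Dart).filter (fun d => d.fst = v ∧ χ d = false)).card := by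
    intro v
    refine Finset.card_nbij' p p ?_ ?_ ?_ ?_
    · intro d hd
      simp only [Finset.coe_filter, Finset.mem_univ, true_and, Set.mem_ofPred_eq] at hd ⊢
      rw [hp3, hχ2, hd.2]
      exact ⟨hd.1, rfl⟩
    · intro d hd
      simp only [Finset.coe_filter, Finset.mem_univ, true_and, Set.mem_ofPred_eq] at hd ⊢
      rw [hp3, hχ2, hd.2]
      exact ⟨hd.1, rfl⟩
    · intro d _; exact hp1 d
    · intro d _; exact hp1 d
  have hsum : ∀ v, ((Finset.univ : Finset G.Dart).filter (fun d => d.fst = v ∧ χ d = true)).card +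
      ((Finset.univ : Finset G.Dart).filter (fun d => d.fst = v ∧ χ d = false)).card = G.degree v := by
    intro v
    rw [← hfib v, ← Finset.card_union_of_disjoint]
    · congr 1
      ext d
      simp only [Finset.mem_union, Finset.mem_filter, Finset.mem_univ, true_and]
      cases χ d <;> simp
    · rw [Finset.disjoint_left]
      intro d hd hd'
      simp only [Finset.mem_filter, Finset.mem_univ, true_and] at hd hd'
      rw [hd.2] at hd'
      simp at hd'
  have hfour : ∀ v, G.degree v = 4 → ∀ x, ((Finset.univ : Finset G.Dart).filter (fun d => d.fst = v ∧ χ d = x)).card = 2 := by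
    intro v hv x
    have h1 := hhalf v
    have h2 := hsum v
    rw [hv] at h2
    cases x <;> omega
  let κ : G.Dart → V × Option Bool := fun d => (d.fst, if G.degree d.fst = 4 then some (χ d) else none)
  obtain ⟨p', hp1', hp2', hp3'⟩ := exists_pairing κ (by
    rintro ⟨v, o⟩
    rw [Nat.card_eq_fintype_card, Fintype.card_subtype]
    by_cases hv : G.degree v = 4
    · cases o with
      | none =>
        have : ((Finset.univ : Finset G.Dart).filter (fun d => κ d = (v, none))) = ∅ := by
          ext d
          simp only [Finset.mem_filter, Finset.mem_univ, true_and, Finset.notMem_empty, iff_false, κ,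
            Prod.mk.injEq, not_and]
          rintro rfl
          simp [hv]
        rw [this]; simp
      | some x =>
        have : ((Finset.univ : Finset G.Dart).filter (fun d => κ d = (v, some x))) =
            ((Finset.univ : Finset G.Dart).filter (fun d => d.fst = v ∧ χ d = x)) := by
          ext d
          simp only [Finset.mem_filter, Finset.mem_univ, true_and, κ, Prod.mk.injEq]
          constructor
          · rintro ⟨rfl, h⟩
            simp [hv] at h
            exact ⟨rfl, h⟩
          · rintro ⟨rfl, h⟩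
            simp [hv, h]
        rw [this, hfour v hv x]; decide
    · cases o with
      | none =>
        have : ((Finset.univ : Finset G.Dart).filter (fun d => κ d = (v, none))) =
            ((Finset.univ : Finset G.Dart).filter (fun d => d.fst = v)) := by
          ext d
          simp only [Finset.mem_filter, Finset.mem_univ, true_and, κ, Prod.mk.injEq]
          constructor
          · rintro ⟨rfl, h⟩; rfl
          · rintro rfl; simp [hv]
        rw [this, hfib]; exact hev v
      | some x =>
        have : ((Finset.univ : Finset G.Dart).filter (fun d => κ d = (v, some x))) = ∅ := by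
          ext d
          simp only [Finset.mem_filter, Finset.mem_univ, true_and, Finset.notMem_empty, iff_false, κ,
            Prod.mk.injEq, not_and]
          rintro rfl
          simp [hv]
        rw [this]; simp)
  have hfst' : ∀ d, (p' d).fst = d.fst := fun d =>
    (congrArg Prod.fst (hp3' d) : (κ (p' d)).1 = (κ d).1)
  have hchi' : ∀ d, G.degree d.fst = 4 → χ (p' d) = χ d := by
    intro d hd
    have h : (if G.degree (p' d).fst = 4 then some (χ (p' d)) else none) =
      (if G.degree d.fst = 4 then some (χ d) else none) := congrArg Prod.snd (hp3' d)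
    rw [hfst', if_pos hd, if_pos hd] at h
    exact Option.some.inj h
  obtain ⟨c', hc1', hc2'⟩ := exists_coloring SimpleGraph.Dart.symm p' hs1 hs2 hp1' hp2'
  let c : G.Dart → Bool := fun d => xor (c' d) (χ d)
  have hc1 : ∀ d, c d.symm = c d := by
    intro d
    simp only [c, hc1', hχ1]
    cases c' d <;> cases χ d <;> rfl
  have hc4 : ∀ d, G.degree d.fst = 4 → c (p' d) = !c d := by
    intro d hd
    simp only [c, hc2', hchi' d hd]
    cases c' d <;> cases χ d <;> rfl
  -- degree of a vertex with a dart
  have hdeg : ∀ d : G.Dart, G.degree d.fst = 4 ∨ G.degree d.fst = 2 := by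
    intro d
    have h1 : 0 < G.degree d.fst := by
      rw [← hfib, Finset.card_pos]
      exact ⟨d, by simp⟩
    have h2 := hle d.fst
    obtain ⟨k, hk⟩ := hev d.fst
    omega
  have htwo : ∀ d e f : G.Dart, G.degree d.fst = 2 → e.fst = d.fst → f.fst = d.fst → e ≠ d → f ≠ d → e = f := by
    intro d e f hd he hf hed hfd
    by_contra hef
    have h3 : ({d, e, f} : Finset G.Dart).card = 3 := by
      rw [Finset.card_eq_three]
      exact ⟨d, e, f, hed.symm, hfd.symm, hef, rfl⟩
    have h4 : ({d, e, f} : Finset G.Dart) ⊆ (Finset.univ : Finset G.Dart).filter (fun x => x.fst = d.fst) := by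
      intro x hx
      simp only [Finset.mem_insert, Finset.mem_singleton] at hx
      simp only [Finset.mem_filter, Finset.mem_univ, true_and]
      rcases hx with rfl | rfl | rfl
      · rfl
      · exact he
      · exact hf
    have := Finset.card_le_card h4
    rw [h3, hfib, hd] at this
    omega
  have U1 : ∀ d d' : G.Dart, d'.fst = d.fst → χ d' = χ d → c d' = c d → d' = d := by
    intro d d' h1 h2 h3
    by_contra hne
    rcases hdeg d with hd | hd
    · have h4 : ({d, d', p' d} : Finset G.Dart).card = 3 := by
        rw [Finset.card_eq_three]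
        refine ⟨d, d', p' d, fun h => hne h.symm, (hp2' d).symm, ?_, rfl⟩
        intro h
        have := hc4 d hd
        rw [← h, h3] at this
        cases hh : c d <;> rw [hh] at this <;> simp at this
      have h5 : ({d, d', p' d} : Finset G.Dart) ⊆
          (Finset.univ : Finset G.Dart).filter (fun x => x.fst = d.fst ∧ χ x = χ d) := by
        intro x hx
        simp only [Finset.mem_insert, Finset.mem_singleton] at hx
        simp only [Finset.mem_filter, Finset.mem_univ, true_and]
        rcases hx with rfl | rfl | rfl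
        · exact ⟨rfl, rfl⟩
        · exact ⟨h1, h2⟩
        · exact ⟨hfst' d, hchi' d hd⟩
      have := Finset.card_le_card h5
      rw [h4, hfour _ hd] at this
      omega
    · have h4 := htwo d d' (p d) hd h1 (hp3 d) hne (hp2 d)
      rw [h4, hχ2] at h2
      cases hh : χ d <;> rw [hh] at h2 <;> simp at h2
  have U2 : ∀ d : G.Dart, ∃ e : G.Dart, e.fst = d.fst ∧ χ e = !χ d ∧ c e = c d := by
    intro d
    rcases hdeg d with hd | hd
    · by_cases h : c (p d) = c d
      · exact ⟨p d, hp3 d, hχ2 d, h⟩
      · have hd' : G.degree (p d).fst = 4 := by rw [hp3]; exact hd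
        refine ⟨p' (p d), by rw [hfst', hp3], by rw [hchi' _ hd', hχ2], ?_⟩
        rw [hc4 _ hd']
        cases h1 : c (p d) <;> cases h2 : c d <;> rw [h1, h2] at h <;> simp at h ⊢
    · have h4 : p' d = p d := htwo d (p' d) (p d) hd (hfst' d) (hp3 d) (hp2' d) (hp2 d)
      refine ⟨p' d, hfst' d, by rw [h4, hχ2], ?_⟩
      simp only [c, hc2']
      rw [h4, hχ2]
      cases c' d <;> cases χ d <;> rfl
  classical
  let F : Bool → Bool → V → V := fun x b v =>
    if h : ∃ d : G.Dart, d.fst = v ∧ χ d = x ∧ c d = b then h.choose.snd else v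
  have hF1 : ∀ d : G.Dart, F (χ d) (c d) d.fst = d.snd := by
    intro d
    have h : ∃ e : G.Dart, e.fst = d.fst ∧ χ e = χ d ∧ c e = c d := ⟨d, rfl, rfl, rfl⟩
    simp only [F]
    rw [dif_pos h]
    rw [U1 d h.choose h.choose_spec.1 h.choose_spec.2.1 h.choose_spec.2.2]
  have hF2 : ∀ x b v, (¬ ∃ d : G.Dart, d.fst = v ∧ χ d = x ∧ c d = b) → F x b v = v := by
    intro x b v h
    simp only [F]
    rw [dif_neg h]
  have hF3 : ∀ x b v, F (!x) b (F x b v) = v := by
    intro x b v
    by_cases h : ∃ d : G.Dart, d.fst = v ∧ χ d = x ∧ c d = b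
    · obtain ⟨d, rfl, rfl, rfl⟩ := h
      rw [hF1]
      have := hF1 d.symm
      rw [hχ1, hc1] at this
      exact this
    · rw [hF2 x b v h]
      apply hF2
      rintro ⟨d, h1, h2, h3⟩
      obtain ⟨e, e1, e2, e3⟩ := U2 d
      apply h
      refine ⟨e, e1.trans h1, ?_, e3.trans h3⟩
      rw [e2, h2, Bool.not_not]
  let S : Bool → Equiv.Perm V := fun b => ⟨F true b, F false b, hF3 true b, hF3 false b⟩
  have hS : ∀ b v, S b v = F true b v := fun b v => rfl
  have hsupp : ∀ b v, v ∈ (S b).support ↔ ∃ d : G.Dart, d.fst = v ∧ χ d = true ∧ c d = b := by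
    intro b v
    rw [Equiv.Perm.mem_support, hS]
    constructor
    · intro h
      by_contra h'
      exact h (hF2 _ _ _ h')
    · rintro ⟨d, rfl, h1, rfl⟩
      have := hF1 d
      rw [h1] at this
      rw [this]
      exact d.snd_ne_fst
  have hmem : ∀ b v, v ∈ (S b).support → ∃ d : G.Dart, d.fst = v ∧ χ d = true ∧ c d = b ∧ s(v, S b v) = d.edge := by
    intro b v hv
    obtain ⟨d, rfl, h1, rfl⟩ := (hsupp b v).1 hv
    refine ⟨d, rfl, h1, rfl, ?_⟩
    have := hF1 d
    rw [h1] at this
    rw [hS, this]
    rfl
  have hinj : ∀ b b' v v', v ∈ (S b).support → v' ∈ (S b').support → s(v, S b v) = s(v', S b' v') → v = v' ∧ b = b' := by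
    intro b b' v v' hv hv' h
    obtain ⟨d, rfl, h1, rfl, h2⟩ := hmem b v hv
    obtain ⟨d', rfl, h1', rfl, h2'⟩ := hmem b' v' hv'
    rw [h2, h2', SimpleGraph.dart_edge_eq_iff] at h
    rcases h with rfl | rfl
    · exact ⟨rfl, rfl⟩
    · rw [hχ1, h1'] at h1
      simp at h1
  refine ⟨S true, S false, ?_⟩
  rw [Multiset.Nodup.ext G.edgeFinset.nodup]
  · intro e
    simp only [Finset.mem_val, SimpleGraph.mem_edgeFinset, Multiset.mem_add, Multiset.mem_map]
    constructor
    · intro he
      have : ∃ d : G.Dart, d.edge = e := by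
        induction e using Sym2.ind with
        | _ a b =>
          exact ⟨⟨(a, b), by simpa using he⟩, rfl⟩
      obtain ⟨d, rfl⟩ := this
      have h0 : ∃ d' : G.Dart, d'.edge = d.edge ∧ χ d' = true := by
        cases h : χ d
        · exact ⟨d.symm, by simp, by rw [hχ1, h]; rfl⟩
        · exact ⟨d, rfl, h⟩
      obtain ⟨d', h1, h2⟩ := h0
      have h3 := hF1 d'
      rw [h2] at h3
      cases h : c d'
      · right
        refine ⟨d'.fst, (hsupp _ _).2 ⟨d', rfl, h2, h⟩, ?_⟩
        rw [h] at h3
        rw [hS, h3, ← h1]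
        rfl
      · left
        refine ⟨d'.fst, (hsupp _ _).2 ⟨d', rfl, h2, h⟩, ?_⟩
        rw [h] at h3
        rw [hS, h3, ← h1]
        rfl
    · rintro (⟨v, hv, rfl⟩ | ⟨v, hv, rfl⟩)
      · obtain ⟨d, _, _, _, h⟩ := hmem _ _ hv
        rw [h]; exact d.edge_mem
      · obtain ⟨d, _, _, _, h⟩ := hmem _ _ hv
        rw [h]; exact d.edge_mem
  · rw [Multiset.nodup_add]
    refine ⟨?_, ?_, ?_⟩
    · apply Multiset.Nodup.map_on _ (Finset.nodup _)
      intro a ha b hb h
      exact (hinj _ _ _ _ ha hb h).1
    · apply Multiset.Nodup.map_on _ (Finset.nodup _)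
      intro a ha b hb h
      exact (hinj _ _ _ _ ha hb h).1
    · rw [Multiset.disjoint_left]
      intro e h1 h2
      rw [Multiset.mem_map] at h1 h2
      obtain ⟨a, ha, rfl⟩ := h1
      obtain ⟨b, hb, h⟩ := h2
      have := (hinj _ _ _ _ hb ha h).2
      simp at this

end POC
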