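import Pool.Agent.Hhelper38.PocF
import Pool.Agent.Hhelper38.PocG
set_option autoImplicit false
namespace POC
universe u

section
variable {V : Type u} [Fintype V] [DecidableEq V]

/-- a transversal whose chosen edges contain `p` and avoid `q`, `r` -/
theorem good_trans (σ : Equiv.Perm V) (h3 : ∀ v ∈ σ.support, σ (σ v) ≠ v) {p q r : V}
    (hp : p ∈ σ.support) (hqp : q ≠ p) (hrp : r ≠ p) (hq1 : q ≠ σ p) (hq2 : p ≠ σ q)
    (hqr : q ∈ σ.support → σ.SameCycle q r → σ.SameCycle p q) :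
    ∃ A, IsTrans σ A ∧ InS σ A p ∧ ¬ InS σ A q ∧ ¬ InS σ A r := by
  obtain ⟨A, hA, hΦ⟩ := exists_trans σ (fun a => (σ.SameCycle p a → (a = p ∨ σ a = p)) ∧
    a ≠ q ∧ σ a ≠ q ∧ a ≠ r ∧ σ a ≠ r) (by
    intro t ht
    have hts : ∀ w, σ.SameCycle t w → w ∈ σ.support := by
      intro w hw
      rw [Equiv.Perm.mem_support] at ht ⊢
      intro h
      exact ht (hw.apply_eq_self_iff.2 h)
    have hap : ∀ w, σ.SameCycle t w → σ.SameCycle t (σ w) := fun w hw =>
      (Equiv.Perm.sameCycle_apply_right).2 hw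
    by_cases hpt : σ.SameCycle p t
    · by_cases hr : σ p = r
      · refine ⟨σ⁻¹ p, ?_, ?_, ?_, ?_, ?_, ?_⟩
        · exact (Equiv.Perm.sameCycle_symm_apply_right).2 hpt.symm
        · intro _; right; simp
        · intro h; apply hq2; rw [← h]; simp
        · simpa using hqp.symm
        · intro h
          apply h3 p hp
          rw [hr, ← h]; simp
        · simpa using hrp.symm
      · exact ⟨p, hpt.symm, fun _ => Or.inl rfl, hqp.symm, hq1.symm, hrp.symm, hr⟩
    · have hvac : ∀ a, σ.SameCycle t a → (σ.SameCycle p a → (a = p ∨ σ a = p)) := by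
        intro a h1 h2
        exact absurd (h2.trans h1.symm) hpt
      by_cases htq : σ.SameCycle t q
      · have htr : ¬ σ.SameCycle t r := by
          intro h
          exact hpt ((hqr (hts q htq) (htq.symm.trans h)).trans htq.symm)
        have hqs := hts q htq
        refine ⟨σ q, hap q htq, hvac _ (hap q htq), ?_, ?_, ?_, ?_⟩
        · exact Equiv.Perm.mem_support.1 hqs
        · exact h3 q hqs
        · intro h; rw [← h] at htr; exact htr (hap q htq)
        · intro h; rw [← h] at htr; exact htr (hap _ (hap q htq))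
      · by_cases htr : σ.SameCycle t r
        · have hrs := hts r htr
          refine ⟨σ r, hap r htr, hvac _ (hap r htr), ?_, ?_, ?_, ?_⟩
          · intro h; rw [← h] at htq; exact htq (hap r htr)
          · intro h; rw [← h] at htq; exact htq (hap _ (hap r htr))
          · exact Equiv.Perm.mem_support.1 hrs
          · exact h3 r hrs
        · have h0 : σ.SameCycle t t := Equiv.Perm.SameCycle.refl _ _
          refine ⟨t, h0, hvac _ h0, ?_, ?_, ?_, ?_⟩
          · rintro rfl; exact htq h0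
          · intro h; rw [← h] at htq; exact htq (hap _ h0)
          · rintro rfl; exact htr h0
          · intro h; rw [← h] at htr; exact htr (hap _ h0))
  refine ⟨A, hA, ?_, ?_, ?_⟩
  · obtain ⟨a, ha, hpa⟩ := hA.ex p hp
    rcases (hΦ a ha).1 hpa with rfl | h
    · exact Or.inl ha
    · right; rw [← h]; simpa using ha
  · rw [inS_iff]
    rintro ⟨a, ha, h | h⟩
    · exact (hΦ a ha).2.1 h.symm
    · exact (hΦ a ha).2.2.1 h.symm
  · rw [inS_iff]
    rintro ⟨a, ha, h | h⟩
    · exact (hΦ a ha).2.2.2.1 h.symm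
    · exact (hΦ a ha).2.2.2.2 h.symm

theorem even_count {V : Type u} [DecidableEq V] {E₁ E₂ E₃ : Multiset V} (h₁ : E₁.Nodup)
    (h₂ : E₂.Nodup) (h₃ : E₃.Nodup) (v : V)
    (h : v ∈ E₃ ↔ ((v ∈ E₁ ∧ ¬ v ∈ E₂) ∨ (¬ v ∈ E₁ ∧ v ∈ E₂))) :
    Even (Multiset.count v E₁ + Multiset.count v E₂ + Multiset.count v E₃) := by
  rw [Multiset.count_eq_of_nodup h₁, Multiset.count_eq_of_nodup h₂, Multiset.count_eq_of_nodup h₃]
  by_cases a1 : v ∈ E₁ <;> by_cases a2 : v ∈ E₂ <;> by_cases a3 : v ∈ E₃ <;>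
    simp [a1, a2, a3] at h ⊢

theorem core (σ τ : Equiv.Perm V) (hσ3 : ∀ v ∈ σ.support, σ (σ v) ≠ v)
    (hτ3 : ∀ v ∈ τ.support, τ (τ v) ≠ v)
    (hdisj : ∀ v ∈ σ.support, ∀ w ∈ τ.support, s(v, σ v) ≠ s(w, τ w)) (x : V)
    (hxσ : x ∈ σ.support) (hxτ : x ∈ τ.support) :
    ∃ (l₁ l₂ l₃ : List V) (X : Multiset (Sym2 V)), l₁.Nodup ∧ l₂.Nodup ∧ l₃.Nodup ∧
      l₁ ≠ [] ∧ l₂ ≠ [] ∧ l₃ ≠ [] ∧
      me l₁ + me l₂ + me l₃ = σ.support.val.map (fun v => s(v, σ v)) +
        τ.support.val.map (fun v => s(v, τ v)) + (X + X) := by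
  have hyτ : τ x ∈ τ.support := by simpa using hxτ
  have hzx : τ (τ x) ≠ x := hτ3 x hxτ
  have hyx : τ x ≠ x := Equiv.Perm.mem_support.1 hxτ
  have hzy : τ (τ x) ≠ τ x := Equiv.Perm.mem_support.1 hyτ
  -- the transversal for `σ`
  have step1 : ∃ A₁, IsTrans σ A₁ ∧ ¬ InS σ A₁ (τ x) ∧
      ((InS σ A₁ x ∧ ¬ InS σ A₁ (τ (τ x))) ∨ (¬ InS σ A₁ x ∧ InS σ A₁ (τ (τ x)))) := by
    by_cases hc : τ x ∈ σ.support ∧ σ.SameCycle (τ x) (τ (τ x)) ∧ ¬ σ.SameCycle x (τ x)
    · obtain ⟨c1, c2, c3⟩ := hc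
      have hzs : τ (τ x) ∈ σ.support := by
        rw [Equiv.Perm.mem_support] at c1 ⊢
        intro h
        exact c1 (c2.apply_eq_self_iff.2 h)
      obtain ⟨A, hA, g1, g2, g3⟩ := good_trans σ hσ3 (p := τ (τ x)) (q := τ x) (r := x) hzs hzy.symm
        hzx.symm (by
          intro h
          apply hdisj _ hzs _ hyτ
          rw [← h, Sym2.eq_swap]) (by
          intro h
          apply hdisj _ c1 _ hyτ
          rw [← h]) (fun _ _ => c2.symm)
      exact ⟨A, hA, g2, Or.inr ⟨g3, g1⟩⟩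
    · obtain ⟨A, hA, g1, g2, g3⟩ := good_trans σ hσ3 (p := x) (q := τ x) (r := τ (τ x)) hxσ hyx hzx
        (by
          intro h
          apply hdisj _ hxσ _ hxτ
          rw [← h]) (by
          intro h
          have hys : τ x ∈ σ.support := by
            rw [Equiv.Perm.mem_support, ← h]; exact hyx.symm
          apply hdisj _ hys _ hxτ
          rw [← h, Sym2.eq_swap]) (fun h1 h2 => by
          by_contra h3
          exact hc ⟨h1, h2, h3⟩)
      exact ⟨A, hA, g2, Or.inl ⟨g1, g3⟩⟩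
  obtain ⟨A₁, hA₁, hy1, hxz1⟩ := step1
  -- the transversal of `τ` containing `x`
  obtain ⟨T, hT, hTx⟩ := exists_trans τ (fun a => τ.SameCycle x a → a = x) (by
    intro t ht
    by_cases h : τ.SameCycle x t
    · exact ⟨x, h.symm, fun _ => rfl⟩
    · exact ⟨t, Equiv.Perm.SameCycle.refl _ _, fun h' => absurd h' h⟩)
  have hxT : x ∈ T := by
    obtain ⟨a, ha, hxa⟩ := hT.ex x hxτ
    rwa [hTx a ha hxa] at ha
  obtain ⟨A, B, g1, g2, g3, g4, g5, g6, g7, g8, g9⟩ := build σ τ hA₁ hτ3 (T.erase x)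
    (fun q hq => hT.sub q (Finset.mem_of_mem_erase hq))
    (fun q hq r hr => hT.uniq q (Finset.mem_of_mem_erase hq) r (Finset.mem_of_mem_erase hr))
  have hfree : ∀ w, τ.SameCycle x w → ¬ InS τ A w := by
    intro w hw hin
    rw [inS_iff] at hin
    obtain ⟨a, ha, hwa⟩ := hin
    have h1 : τ.SameCycle a w := by
      rcases hwa with rfl | rfl
      · exact Equiv.Perm.SameCycle.refl _ _
      · exact (Equiv.Perm.sameCycle_apply_right).2 (Equiv.Perm.SameCycle.refl _ _)
    obtain ⟨r, hr, hra⟩ := g3 a ha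
    have h2 : x = r := hT.uniq x hxT r (Finset.mem_of_mem_erase hr) (hw.trans (h1.symm.trans hra.symm))
    subst h2
    simp at hr
  have hsy : τ.SameCycle x (τ x) := (Equiv.Perm.sameCycle_apply_right).2 (Equiv.Perm.SameCycle.refl _ _)
  have hsz : τ.SameCycle x (τ (τ x)) := (Equiv.Perm.sameCycle_apply_right).2 hsy
  have fx := hfree x (Equiv.Perm.SameCycle.refl _ _)
  have fy := hfree _ hsy
  have fz := hfree _ hsz
  have vx : x ∈ verts B ↔ InS σ A₁ x := by
    rw [g8]; exact ⟨fun h => h.resolve_right fx, Or.inl⟩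
  have vy : τ x ∉ verts B := by
    rw [g8]; exact fun h => h.elim hy1 fy
  have vz : τ (τ x) ∈ verts B ↔ InS σ A₁ (τ (τ x)) := by
    rw [g8]; exact ⟨fun h => h.resolve_right fz, Or.inl⟩
  have habs : ∀ w, τ.SameCycle x w → (w ∉ verts B ∨ w ∈ endz B) := by
    intro w hw
    have := hfree w hw
    by_cases h : InS σ A₁ w
    · right; rw [g9]; exact Or.inl ⟨h, this⟩
    · left; rw [g8]; exact fun h' => h'.elim h this
  have hnp1 : ¬ Partner B x (τ x) := by
    rintro ⟨b, hb, _, h, _⟩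
    apply vy
    apply g6.endz_sub
    rw [endz, Multiset.mem_bind]
    exact ⟨b, hb, h⟩
  have hnp2 : ¬ Partner B (τ x) (τ (τ x)) := by
    rintro ⟨b, hb, h, _, _⟩
    apply vy
    apply g6.endz_sub
    rw [endz, Multiset.mem_bind]
    exact ⟨b, hb, h⟩
  obtain ⟨Bx, x1, x2, x3, x4, x5, x6, x7⟩ := g6.add_edge hyx.symm (habs x (Equiv.Perm.SameCycle.refl _ _))
    (habs _ hsy) hnp1
  obtain ⟨By, y1, y2, y3, y4, y5, y6, y7⟩ := g6.add_edge hzy.symm (habs _ hsy) (habs _ hsz) hnp2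
  have hcard : (Multiset.card Bx = Multiset.card B ∧ Multiset.card By = Multiset.card B + 1) ∨
      (Multiset.card Bx = Multiset.card B + 1 ∧ Multiset.card By = Multiset.card B) := by
    rcases hxz1 with ⟨h1, h2⟩ | ⟨h1, h2⟩
    · left
      refine ⟨x7 (vx.2 h1) vy, y5 vy (fun h => h2 (vz.1 h))⟩
    · right
      refine ⟨x5 (fun h => h1 (vx.1 h)) vy, y6 vy (vz.2 h2)⟩
  -- the general final step
  have fin : ∀ (a : V) (B' : Multiset (List V)), τ.SameCycle x a → BS B' →
      edges B' = edges B + {s(a, τ a)} →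
      (∀ v, v ∈ endz B' ↔ ((v ∈ endz B ∧ v ≠ a ∧ v ≠ τ a) ∨ (v = a ∧ a ∉ verts B) ∨
        (v = τ a ∧ τ a ∉ verts B))) →
      Odd (A₁.card + T.card + Multiset.card B') →
      ∃ (l₁ l₂ l₃ : List V) (X : Multiset (Sym2 V)), l₁.Nodup ∧ l₂.Nodup ∧ l₃.Nodup ∧
      l₁ ≠ [] ∧ l₂ ≠ [] ∧ l₃ ≠ [] ∧
      me l₁ + me l₂ + me l₃ = σ.support.val.map (fun v => s(v, σ v)) +
        τ.support.val.map (fun v => s(v, τ v)) + (X + X) := by
    intro a B' hxa k1 k2 k4 hodd
    have hτa : τ.SameCycle x (τ a) := (Equiv.Perm.sameCycle_apply_right).2 hxa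
    have has : a ∈ τ.support := by
      rw [Equiv.Perm.mem_support] at hxτ ⊢
      intro h
      exact hxτ (hxa.apply_eq_self_iff.2 h)
    have hne : a ≠ τ a := fun h => (Equiv.Perm.mem_support.1 has) h.symm
    have haA : a ∉ A := fun h => hfree a hxa (Or.inl h)
    have hA₂ : IsTrans τ (insert a A) := by
      constructor
      · intro b hb
        rw [Finset.mem_insert] at hb
        rcases hb with rfl | hb
        · exact has
        · exact g2 b hb
      · intro v hv
        obtain ⟨q, hq, hvq⟩ := hT.ex v hv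
        by_cases hqx : q = x
        · subst hqx
          exact ⟨a, by simp, hvq.trans hxa⟩
        · obtain ⟨b, hb, h⟩ := g4 q (Finset.mem_erase.2 ⟨hqx, hq⟩)
          exact ⟨b, by simp [hb], hvq.trans h⟩
      · intro b hb c hc hbc
        rw [Finset.mem_insert] at hb hc
        rcases hb with rfl | hb <;> rcases hc with rfl | hc
        · rfl
        · exact absurd (Or.inl hc) (hfree c (hxa.trans hbc))
        · exact absurd (Or.inl hb) (hfree b (hxa.trans hbc.symm))
        · exact g5 b hb c hc hbc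
    have hcardA₂ : (insert a A).card = T.card := by
      rw [Finset.card_insert_of_notMem haA, g1, Finset.card_erase_of_mem hxT]
      have : 0 < T.card := Finset.card_pos.2 ⟨x, hxT⟩
      omega
    have hend : ∀ v, v ∈ endz B' ↔ ((InS σ A₁ v ∧ ¬ InS τ (insert a A) v) ∨
        (¬ InS σ A₁ v ∧ InS τ (insert a A) v)) := by
      intro v
      rw [inS_insert]
      exact endz_step hne g9 g8 k4 (hfree a hxa) (hfree _ hτa) v
    have hB1 := BS_cyc σ hA₁
    have hB2 := BS_cyc τ hA₂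
    obtain ⟨l₁, l₂, l₃, X, q1, q2, q3, q4, q5, q6, q7⟩ := link _ (cyc σ A₁) (cyc τ (insert a A)) B'
      hB1 hB2 k1 rfl (by rw [card_cyc, card_cyc, hcardA₂]; exact hodd) (by
        intro v
        have e1 := mem_endz_cyc σ hA₁ v
        have e2 := mem_endz_cyc τ hA₂ v
        have e3 := hend v
        change _ ↔ InS σ A₁ v at e1
        change _ ↔ InS τ (insert a A) v at e2
        rw [← e1, ← e2] at e3
        exact even_count hB1.endz_nodup hB2.endz_nodup k1.endz_nodup v e3)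
    refine ⟨l₁, l₂, l₃, X, q1, q2, q3, q4, q5, q6, ?_⟩
    rw [q7, k2, g7, ← edges_cyc σ hA₁, ← edges_cyc τ hA₂, Finset.insert_val_of_notMem haA,
      Multiset.map_cons, ← Multiset.singleton_add]
    abel
  by_cases hpar : Odd (A₁.card + T.card + Multiset.card Bx)
  · exact fin x Bx (Equiv.Perm.SameCycle.refl _ _) x1 x2 x4 hpar
  · refine fin (τ x) By hsy y1 y2 y4 ?_
    rw [Nat.not_odd_iff_even] at hpar
    obtain ⟨k, hk⟩ := hpar
    rcases hcard with ⟨h1, h2⟩ | ⟨h1, h2⟩
    · exact ⟨k, by omega⟩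
    · have : 0 < A₁.card + T.card + Multiset.card By := by
        have : 0 < T.card := Finset.card_pos.2 ⟨x, hxT⟩
        omega
      exact ⟨k - 1, by omega⟩

end

end POC
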